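import Mathlib

/-!
Path words: elements of the free path monoid over the edges of the Bass-Serre tree.
A path word is a list of letters (coset of C, direction) and a group element; product is
semidirect: (l, g) (l', g') = (l ++ g l', g g').
-/

set_option autoImplicit false

namespace Pool.Agent.Y52.RS

/-- path words -/
@[ext]
structure PW (G : Type) [Group G] (C : Subgroup G) where
  l : List ((G ⧸ C) × Bool)
  g : G

namespace PW

variable {G : Type} [Group G] {C : Subgroup G}

/-- translation of a list of letters -/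
def tr (x : G) (l : List ((G ⧸ C) × Bool)) : List ((G ⧸ C) × Bool) :=
  l.map fun e => (x • e.1, e.2)

theorem tr_nil (x : G) : tr x ([] : List ((G ⧸ C) × Bool)) = [] := rfl

theorem tr_cons (x : G) (e : (G ⧸ C) × Bool) (l : List ((G ⧸ C) × Bool)) :
    tr x (e :: l) = (x • e.1, e.2) :: tr x l := rfl

theorem tr_append (x : G) (l l' : List ((G ⧸ C) × Bool)) :
    tr x (l ++ l') = tr x l ++ tr x l' := List.map_append

theorem tr_one (l : List ((G ⧸ C) × Bool)) : tr 1 l = l := by
  induction l with
  | nil => rfl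
  | cons e l ih => rw [tr_cons, ih, one_smul]

theorem tr_tr (x y : G) (l : List ((G ⧸ C) × Bool)) : tr x (tr y l) = tr (x * y) l := by
  induction l with
  | nil => rfl
  | cons e l ih => rw [tr_cons, tr_cons, tr_cons, ih, mul_smul]

theorem tr_length (x : G) (l : List ((G ⧸ C) × Bool)) : (tr x l).length = l.length :=
  List.length_map _

instance : Mul (PW G C) := ⟨fun u v => ⟨u.l ++ tr u.g v.l, u.g * v.g⟩⟩
instance : One (PW G C) := ⟨⟨[], 1⟩⟩

theorem mul_l (u v : PW G C) : (u * v).l = u.l ++ tr u.g v.l := rfl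
theorem mul_g (u v : PW G C) : (u * v).g = u.g * v.g := rfl
theorem one_l : (1 : PW G C).l = [] := rfl
theorem one_g : (1 : PW G C).g = 1 := rfl

instance : Monoid (PW G C) where
  mul_assoc u v w := by
    ext1
    · rw [mul_l, mul_l, mul_l, mul_l, tr_append, List.append_assoc, tr_tr, mul_g]
    · rw [mul_g, mul_g, mul_g, mul_g, mul_assoc]
  one_mul u := by
    ext1
    · rw [mul_l, one_l, one_g, tr_one, List.nil_append]
    · rw [mul_g, one_g, one_mul]
  mul_one u := by
    ext1
    · rw [mul_l, one_l, tr_nil, List.append_nil]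
    · rw [mul_g, one_g, mul_one]

/-- number of edges -/
def len (u : PW G C) : ℕ := u.l.length

theorem len_mul (u v : PW G C) : (u * v).len = u.len + v.len := by
  rw [len, mul_l, List.length_append, tr_length]; rfl

theorem len_one : (1 : PW G C).len = 0 := rfl

/-- a group element as a path word without edges -/
def i (x : G) : PW G C := ⟨[], x⟩

/-- the base edge with direction `s` -/
def z (s : Bool) : PW G C := ⟨[(((1 : G) : G ⧸ C), s)], 1⟩

theorem len_i (x : G) : (i x : PW G C).len = 0 := rfl
theorem len_z (s : Bool) : (z s : PW G C).len = 1 := rfl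
theorem i_g (x : G) : (i x : PW G C).g = x := rfl
theorem z_g (s : Bool) : (z s : PW G C).g = 1 := rfl

theorem i_one : (i 1 : PW G C) = 1 := rfl

theorem i_mul (x y : G) : (i (x * y) : PW G C) = i x * i y := rfl

theorem i_mul_i_inv (x : G) : (i x : PW G C) * i x⁻¹ = 1 := by
  rw [← i_mul, mul_inv_cancel]; rfl

theorem i_inv_mul_i (x : G) : (i x⁻¹ : PW G C) * i x = 1 := by
  rw [← i_mul, inv_mul_cancel]; rfl

/-- elements of `C` commute with the base edge -/
theorem i_mul_z {c : G} (hc : c ∈ C) (s : Bool) : (i c : PW G C) * z s = z s * i c := by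
  ext1
  · change [] ++ tr c [(((1 : G) : G ⧸ C), s)] = [(((1 : G) : G ⧸ C), s)] ++ tr 1 []
    rw [tr_nil, tr_cons, tr_nil, List.append_nil, List.nil_append]
    congr 2
    change (((c * 1 : G)) : G ⧸ C) = ((1 : G) : G ⧸ C)
    rw [QuotientGroup.eq]
    simpa using C.inv_mem hc
  · change c * 1 = 1 * c
    rw [mul_one, one_mul]

theorem eq_i_of_len {u : PW G C} (h : u.len = 0) : u = i u.g := by
  ext1
  · exact List.length_eq_zero_iff.mp h
  · rfl

theorem mul_left_cancel' {u v w : PW G C} (h : u * v = u * w) : v = w := by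
  have h1 := congrArg PW.l h
  have h2 := congrArg PW.g h
  rw [mul_l, mul_l] at h1
  rw [mul_g, mul_g] at h2
  have h3 := List.append_cancel_left h1
  ext1
  · have h4 := congrArg (tr u.g⁻¹) h3
    rwa [tr_tr, tr_tr, inv_mul_cancel, tr_one, tr_one] at h4
  · exact mul_left_cancel h2

theorem mul_right_cancel' {u v w : PW G C} (h : u * w = v * w) : u = v := by
  have h1 := congrArg PW.l h
  have h2 := congrArg PW.g h
  rw [mul_l, mul_l] at h1
  rw [mul_g, mul_g] at h2
  have h3 : u.g = v.g := mul_right_cancel h2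
  rw [h3] at h1
  ext1
  · exact List.append_cancel_right h1
  · exact h3

/-- a base edge and a letter: `i x * z s * A = z t * B` -/
theorem z_eq {x : G} {s t : Bool} {A B : PW G C} (h : i x * z s * A = z t * B) :
    x ∈ C ∧ s = t ∧ B = i x * A := by
  have h1 := congrArg PW.l h
  have h2 : (((x * 1 : G) : G ⧸ C), s) = (((1 : G) : G ⧸ C), t) := by
    have h3 := congrArg List.head? h1
    exact Option.some.inj h3
  have hs : s = t := congrArg Prod.snd h2
  have hx : x ∈ C := by
    have h4 : (((x * 1 : G) : G ⧸ C)) = ((1 : G) : G ⧸ C) := congrArg Prod.fst h2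
    rw [QuotientGroup.eq, mul_one, mul_one] at h4
    exact inv_mem_iff.mp h4
  subst hs
  refine ⟨hx, rfl, ?_⟩
  rw [i_mul_z hx, mul_assoc] at h
  exact (mul_left_cancel' h).symm

/-- Levi lemma: if `A * B = U * z s * V` then the letter lies in `A` or in `B` -/
theorem levi {A B U V : PW G C} {s : Bool} (h : A * B = U * z s * V) :
    (∃ A' : PW G C, A = U * z s * A' ∧ V = A' * B) ∨
      (∃ B' : PW G C, U = A * B' ∧ B = B' * z s * V) := by
  have h1 : A.l ++ tr A.g B.l = U.l ++ ((U.g • ((1 : G) : G ⧸ C), s) :: tr U.g V.l) := by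
    have := congrArg PW.l h
    rw [mul_l, mul_l, mul_l, mul_g, z_g, mul_one] at this
    rw [this, List.append_assoc]
    rfl
  have h2 : A.g * B.g = U.g * V.g := by
    have := congrArg PW.g h
    rw [mul_g, mul_g, mul_g, z_g, mul_one] at this
    exact this
  rcases List.append_eq_append_iff.mp h1 with ⟨m, hm1, hm2⟩ | ⟨m, hm1, hm2⟩
  · -- U.l = A.l ++ m, tr A.g B.l = m ++ letter :: ...
    right
    refine ⟨⟨tr A.g⁻¹ m, A.g⁻¹ * U.g⟩, ?_, ?_⟩
    · ext1
      · rw [mul_l, tr_tr, mul_inv_cancel, tr_one]
        exact hm1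
      · rw [mul_g, mul_inv_cancel_left]
    · have h3 := congrArg (tr A.g⁻¹) hm2
      rw [tr_tr, inv_mul_cancel, tr_one, tr_append, tr_cons] at h3
      ext1
      · rw [mul_l, mul_l, mul_g, z_g, mul_one, h3, List.append_assoc]
        congr 1
        change _ = tr (A.g⁻¹ * U.g) [(((1 : G) : G ⧸ C), s)] ++ tr (A.g⁻¹ * U.g) V.l
        rw [tr_cons, tr_nil, ← tr_tr]
        rw [List.cons_append, List.nil_append, mul_smul]
      · rw [mul_g, mul_g, z_g, mul_one, mul_assoc, ← h2, inv_mul_cancel_left]
  · -- A.l = U.l ++ m, letter :: ... = m ++ tr A.g B.l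
    cases m with
    | nil =>
      right
      rw [List.append_nil] at hm1
      rw [List.nil_append] at hm2
      refine ⟨⟨[], A.g⁻¹ * U.g⟩, ?_, ?_⟩
      · ext1
        · rw [mul_l, tr_nil, List.append_nil]
          exact hm1.symm
        · rw [mul_g, mul_inv_cancel_left]
      · have h3 := congrArg (tr A.g⁻¹) hm2.symm
        rw [tr_tr, inv_mul_cancel, tr_one, tr_cons] at h3
        ext1
        · rw [mul_l, mul_l, mul_g, z_g, mul_one, h3, List.nil_append]
          change _ = tr (A.g⁻¹ * U.g) [(((1 : G) : G ⧸ C), s)] ++ tr (A.g⁻¹ * U.g) V.l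
          rw [tr_cons, tr_nil, ← tr_tr]
          rw [List.cons_append, List.nil_append, mul_smul]
        · rw [mul_g, mul_g, z_g, mul_one, mul_assoc, ← h2, inv_mul_cancel_left]
    | cons e m =>
      left
      rw [List.cons_append, List.cons.injEq] at hm2
      obtain ⟨he, hm2⟩ := hm2
      refine ⟨⟨tr U.g⁻¹ m, U.g⁻¹ * A.g⟩, ?_, ?_⟩
      · ext1
        · rw [mul_l, mul_l, mul_g, z_g, mul_one, tr_tr, mul_inv_cancel, tr_one, hm1, ← he,
            List.append_assoc]
          rfl
        · rw [mul_g, mul_g, z_g, mul_one, mul_inv_cancel_left]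
      · have h3 := congrArg (tr U.g⁻¹) hm2
        rw [tr_tr, inv_mul_cancel, tr_one, tr_append] at h3
        ext1
        · rw [mul_l, h3, tr_tr]
        · rw [mul_g, mul_assoc, h2, inv_mul_cancel_left]

/-- a path word with at least one edge starts with a syllable and an edge -/
theorem exists_head {u : PW G C} (h : 1 ≤ u.len) : ∃ (x : G) (s : Bool) (v : PW G C),
    u = i x * z s * v := by
  obtain ⟨l, g⟩ := u
  cases l with
  | nil => exact absurd h (by simp [len])
  | cons e l =>
    obtain ⟨E, s⟩ := e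
    induction E using QuotientGroup.induction_on with
    | H x =>
      refine ⟨x, s, ⟨tr x⁻¹ l, x⁻¹ * g⟩, ?_⟩
      ext1
      · rw [mul_l, mul_l, mul_g, z_g, mul_one, i_g, tr_tr, mul_inv_cancel, tr_one]
        change _ = [] ++ tr x [(((1 : G) : G ⧸ C), s)] ++ l
        rw [tr_cons, tr_nil, List.nil_append, List.cons_append, List.nil_append]
        change _ = (((x * 1 : G) : G ⧸ C), s) :: l
        rw [mul_one]
      · rw [mul_g, mul_g, z_g, mul_one, i_g, mul_inv_cancel_left]

end PW

end Pool.Agent.Y52.RS
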