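import Mathlib
import Pool.Agent.Y52.RS.Def

/-!
Statements of the jobs of project RS (MP_94a9ea_al: there is an R-star group which is not right
orderable).
-/

set_option autoImplicit false

namespace Pool.Agent.Y52.RS

open PW

/-- R-star groups -/
def RSt (G : Type) [Group G] : Prop :=
  ∀ g : G, g ≠ 1 → ∀ l : List G, l ≠ [] → (l.map (fun h => h * g * h⁻¹)).prod ≠ 1

/-! ### Insertion calculus -/

/-- closure properties of a system `E` of complementary paths of clusters -/
structure ClSys {G : Type} [Group G] (C : Subgroup G) (E : Bool → PW G C → Prop) : Prop where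
  conj : ∀ (s : Bool) (κ : PW G C) (c : G), c ∈ C → E s κ → E s (i c * κ * i c⁻¹)
  rot : ∀ (s t : Bool) (a b : PW G C), E s (a * z t * b) → E (!t) (b * z (!s) * a)
  sub : ∀ (s t : Bool) (a b κ : PW G C), E s (a * z t * b) → E t κ → E s (a * κ * b)
  close : ∀ (s t : Bool) (a b : PW G C), E s (a * z t * z (!t) * b) → E s (a * b)
  len : ∀ (s : Bool) (κ : PW G C), E s κ → 1 ≤ κ.len
  two : ∀ (s t : Bool) (c x : G), c ∈ C → ¬ E s (i c * z t * i x)

/-- path words generated from the trivial word by insertions of backtracks and of clusters; the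
Boolean says whether at least one cluster has been inserted -/
inductive Gen {G : Type} [Group G] {C : Subgroup G} (E : Bool → PW G C → Prop) :
    Bool → PW G C → Prop
  | base : Gen E false 1
  | insR (b s : Bool) (U V : PW G C) : Gen E b (U * V) → Gen E b (U * z s * z (!s) * V)
  | insK (b s : Bool) (U V κ : PW G C) : E (!s) κ → Gen E b (U * V) → Gen E true (U * z s * κ * V)

/-- JOB GEN: words generated by insertions are stable under removal of backtracks -/
def S_GEN : Prop :=
  ∀ (G : Type) [Group G] (C : Subgroup G) (E : Bool → PW G C → Prop), ClSys C E →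
    ∀ (b s : Bool) (U V : PW G C), Gen E b (U * z s * z (!s) * V) → Gen E b (U * V)

/-! ### Clusters -/

/-- tagged segments: `Seg m typ R p q w κ`; `p` the first tag, `q` the last tag, `w` the
number of edges minus the weight -/
inductive Seg {G : Type} [Group G] {C : Subgroup G} (m : ℕ) (typ : ZMod m → Bool)
    (R : ZMod m → Set G) : ZMod m → ZMod m → ℤ → PW G C → Prop
  | run (p q : ZMod m) (N : ℕ) (x : G) : typ p = typ q → (N : ZMod m) = p - q →
      (N = 0 → x ∈ R p) → Seg m typ R p q (-(N : ℤ)) (i x)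
  | cons (p a q : ZMod m) (N : ℕ) (x : G) (w : ℤ) (κ : PW G C) : typ p = typ a →
      (N : ZMod m) = p - a → (N = 0 → x ∈ R p) → Seg m typ R (a + 1) q w κ →
      Seg m typ R p q (-(N : ℤ) + 1 + w) (i x * z (typ p) * κ)

/-- complementary paths of clusters -/
def ESeg {G : Type} [Group G] {C : Subgroup G} (m : ℕ) (typ : ZMod m → Bool)
    (R : ZMod m → Set G) (s : Bool) (κ : PW G C) : Prop :=
  ∃ (q : ZMod m) (w : ℤ), typ (q + 1) = s ∧ (m : ℤ) - 1 ≤ w ∧ Seg m typ R (q + 1) q w κ

/-- JOB SEG: tagged segments form a cluster system -/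
def S_SEG : Prop :=
  ∀ (G : Type) [Group G] (C : Subgroup G) (m : ℕ) (typ : ZMod m → Bool) (R : ZMod m → Set G),
    2 ≤ m → (∀ p, typ (p + 1) = !typ p) →
    (∀ p, ∀ x ∈ R p, ∀ y ∈ R p, x * y ∈ R p) →
    (∀ p, ∀ c ∈ C, ∀ x ∈ R p, c * x ∈ R p ∧ x * c ∈ R p) →
    (∀ p, ∀ x ∈ R p, x ∉ C) →
    ClSys C (ESeg m typ R)

/-! ### Paths -/

/-- products of reduced alternating words, first letter in `H s`, last letter in `H t` -/
inductive RW {G : Type} [Group G] (H : Bool → Subgroup G) (C : Subgroup G) :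
    Bool → Bool → G → Prop
  | one (s : Bool) (x : G) : x ∈ H s → x ∉ C → RW H C s s x
  | cons (s t : Bool) (x y : G) : x ∈ H s → x ∉ C → RW H C (!s) t y → RW H C s t (x * y)

/-- typed path words -/
inductive Path {G : Type} [Group G] (H : Bool → Subgroup G) (C : Subgroup G) :
    Bool → Bool → PW G C → Prop
  | nil (s : Bool) (x : G) : x ∈ H s → Path H C s s (i x)
  | cons (s t : Bool) (x : G) (W : PW G C) : x ∈ H s → Path H C (!s) t W →
      Path H C s t (i x * z s * W)

/-- JOB BT: a closed path with an edge has a backtrack -/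
def S_BT : Prop :=
  ∀ (G : Type) [Group G] (H : Bool → Subgroup G) (C : Subgroup G), (∀ s, C ≤ H s) →
    (∀ s t x, RW H C s t x → x ≠ 1) →
    ∀ (s : Bool) (W : PW G C), Path H C s s W → W.g = 1 → 1 ≤ W.len →
      ∃ (U V : PW G C) (t : Bool), W = U * z t * z (!t) * V ∧ Path H C s s (U * V)

/-- the subgroup `C` is relatively torsion free in `K` -/
def RTF {G : Type} [Group G] (K C : Subgroup G) : Prop :=
  ∀ x ∈ K, x ∉ C → ∀ L : List G, L ≠ [] → (∀ c ∈ L, c ∈ C) → (L.map (fun c => x * c)).prod ∉ C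

/-- (assembly of GEN, SEG, BT) hyperbolic elements are not generalised torsion -/
def S_T2 : Prop :=
  ∀ (G : Type) [Group G] (H : Bool → Subgroup G) (C : Subgroup G), (∀ s, C ≤ H s) →
    (∀ s t x, RW H C s t x → x ≠ 1) →
    Subgroup.closure ((H false : Set G) ∪ (H true : Set G)) = ⊤ →
    (∀ s, RTF (H s) C) →
    ∀ (s : Bool) (g : G), RW H C s (!s) g → ∀ l : List G, l ≠ [] →
      (l.map (fun h => h * g * h⁻¹)).prod ≠ 1

/-! ### Labelled permutations -/

/-- labelled permutations (unrestricted permutational wreath product) -/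
@[ext]
structure LW (Ω A : Type) where
  p : Equiv.Perm Ω
  f : Ω → A

namespace LW

variable {Ω A : Type} [Group A]

instance : Mul (LW Ω A) := ⟨fun u v => ⟨u.p * v.p, fun w => u.f (v.p w) * v.f w⟩⟩
instance : One (LW Ω A) := ⟨⟨1, fun _ => 1⟩⟩
instance : Inv (LW Ω A) := ⟨fun u => ⟨u.p⁻¹, fun w => (u.f (u.p⁻¹ w))⁻¹⟩⟩

theorem mul_p (u v : LW Ω A) : (u * v).p = u.p * v.p := rfl
theorem mul_f (u v : LW Ω A) (w : Ω) : (u * v).f w = u.f (v.p w) * v.f w := rfl
theorem one_p : (1 : LW Ω A).p = 1 := rfl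
theorem one_f (w : Ω) : (1 : LW Ω A).f w = 1 := rfl
theorem inv_p (u : LW Ω A) : u⁻¹.p = u.p⁻¹ := rfl
theorem inv_f (u : LW Ω A) (w : Ω) : u⁻¹.f w = (u.f (u.p⁻¹ w))⁻¹ := rfl

instance : Group (LW Ω A) where
  mul_assoc u v w := by
    apply LW.ext
    · exact mul_assoc _ _ _
    · funext x
      rw [mul_f, mul_f, mul_f, mul_f, mul_p, mul_assoc]
      rfl
  one_mul u := by
    apply LW.ext
    · exact one_mul _
    · funext x
      rw [mul_f, one_f, one_mul]
  mul_one u := by
    apply LW.ext
    · exact mul_one _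
    · funext x
      rw [mul_f, one_f, mul_one]
      rfl
  inv_mul_cancel u := by
    apply LW.ext
    · exact inv_mul_cancel _
    · funext x
      rw [mul_f, one_f, inv_f]
      change (u.f (u.p.symm (u.p x)))⁻¹ * _ = _
      rw [Equiv.symm_apply_apply, inv_mul_cancel]

end LW

open Classical in
/-- the element acting only on the fibre of `w0`, by `a` -/
noncomputable def crd {Ω A : Type} [Group A] (w0 : Ω) (a : A) : LW Ω A :=
  ⟨1, fun w => if w = w0 then a else 1⟩

/-- good pairs -/
structure Good (C F : Type) [Group C] [Group F] (φ : C →* F) : Prop where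
  rst : RSt F
  lab : ∃ (Ω : Type) (w0 : Ω) (θ : F →* LW Ω C), ∀ c, θ (φ c) = crd w0 c
  rtf : ∀ x : F, x ∉ φ.range → ∀ L : List C, L ≠ [] → (L.map (fun c => x * φ c)).prod ∉ φ.range

/-- JOB ELL: elements of the factors are not generalised torsion in the amalgam -/
def S_ELL : Prop :=
  ∀ (C : Type) [Group C] (G : Bool → Type) [∀ b, Group (G b)] (φ : ∀ b, C →* G b),
    (∀ b, Good C (G b) (φ b)) → ∀ (b : Bool) (x : G b), x ≠ 1 →
    ∀ l : List (Monoid.PushoutI φ), l ≠ [] →
      (l.map (fun h => h * Monoid.PushoutI.of b x * h⁻¹)).prod ≠ 1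

/-! ### The concrete pair -/

/-- `x ^ n` or `x ^ (- n)` -/
def pw {G : Type} [Group G] (x : G) (e : Bool) (n : ℕ) : G := if e then x ^ n else x⁻¹ ^ n

/-- the words `a^k b a^k` with signs -/
def zz {G : Type} [Group G] (a b : G) (ea eb : Bool) (k : ℕ) : G :=
  pw a ea k * pw b eb 1 * pw a ea k

/-- JOB FR: the words `a^k b a^k` are free -/
def S_FR : Prop :=
  ∀ (I : Type) (k : I → ℕ) (ea eb : I → Bool), Function.Injective k → (∀ j, 1 ≤ k j) →
    Function.Injective (FreeGroup.lift (fun j =>
      zz (FreeGroup.of false) (FreeGroup.of true) (ea j) (eb j) (k j)) :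
      FreeGroup I →* FreeGroup Bool)

/-- torsion free groups -/
def TF (T : Type) [Group T] : Prop := ∀ (x : T) (n : ℕ), n ≠ 0 → x ^ n = 1 → x = 1

/-- JOB TT: the torsion free quotient -/
def S_TT : Prop :=
  ∀ (J : Type) (g g' : J → FreeGroup Bool),
    Function.Injective (FreeGroup.lift (Sum.elim g g')) →
    ∃ (T : Type) (_ : Group T) (α : FreeGroup Bool →* T) (t : T), TF T ∧
      (∀ j, t * α (g j) * t * α (g' j) = 1) ∧
      Function.Injective (FreeGroup.lift (fun j => α (g' j) * t) : FreeGroup J →* T)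

/-- the relators in the free group on `none`, `some false`, `some true` -/
def ww {J : Type} (g g' : J → FreeGroup Bool) (j : J) : FreeGroup (Option Bool) :=
  FreeGroup.of none * FreeGroup.map some (g j) * FreeGroup.of none * FreeGroup.map some (g' j)

/-- JOB TH: the labelled action of the free group on the quotient -/
def S_TH : Prop :=
  ∀ (J : Type) (g g' : J → FreeGroup Bool) (T : Type) [Group T] (α : FreeGroup Bool →* T)
    (t : T), (∀ j, t * α (g j) * t * α (g' j) = 1) →
    Function.Injective (FreeGroup.lift (fun j => α (g' j) * t) : FreeGroup J →* T) →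
    ∃ (π : FreeGroup (Option Bool) →* T) (θ : FreeGroup (Option Bool) →* LW T (FreeGroup J)),
      (∀ x u, (θ x).p u = π x * u) ∧ ∀ j, θ (ww g g' j) = crd 1 (FreeGroup.of j)

/-- JOB RT: relative torsion freeness from the labelled action -/
def S_RT : Prop :=
  ∀ (F C T : Type) [Group F] [Group C] [Group T] (φ : C →* F) (π : F →* T) (θ : F →* LW T C),
    RSt F → TF T → (∀ x u, (θ x).p u = π x * u) → (∀ c, θ (φ c) = crd 1 c) → Good C F φ

/-- JOB FRS: free groups are R-star -/
def S_FRS : Prop := ∀ (I : Type), RSt (FreeGroup I)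

end Pool.Agent.Y52.RS
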