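import Mathlib
import Pool.Agent.Y52.RS.Stm

/-!
Hyperbolic elements are not generalised torsion: assembly.
-/

set_option autoImplicit false

namespace Pool.Agent.Y52.RS

open PW

/-- alternating types -/
def tp (s : Bool) : ℕ → Bool
  | 0 => s
  | n + 1 => !(tp s n)

theorem tp_succ' (s : Bool) (n : ℕ) : tp (!s) n = tp s (n + 1) := by
  induction n with
  | zero => rfl
  | succ n ih =>
    change (!(tp (!s) n)) = !(tp s (n + 1))
    rw [ih]

/-- products `c x c' x c'' ...` -/
inductive RR {G : Type} [Group G] (C : Subgroup G) (x : G) : G → Prop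
  | one (c c' : G) : c ∈ C → c' ∈ C → RR C x (c * x * c')
  | mul (u v : G) : RR C x u → RR C x v → RR C x (u * v)

theorem RR.cmul {G : Type} [Group G] {C : Subgroup G} {x u : G} (h : RR C x u) :
    ∀ c ∈ C, RR C x (c * u) ∧ RR C x (u * c) := by
  induction h with
  | one c1 c2 h1 h2 =>
    intro c hc
    refine ⟨?_, ?_⟩
    · have := RR.one (x := x) (c * c1) c2 (C.mul_mem hc h1) h2
      rwa [mul_assoc c c1 x, mul_assoc c (c1 * x) c2] at this
    · have := RR.one (x := x) c1 (c2 * c) h1 (C.mul_mem h2 hc)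
      rwa [← mul_assoc] at this
  | mul u v _ _ ih1 ih2 =>
    intro c hc
    refine ⟨?_, ?_⟩
    · rw [← mul_assoc]
      exact RR.mul _ _ (ih1 c hc).1 (by assumption)
    · rw [mul_assoc]
      exact RR.mul _ _ (by assumption) (ih2 c hc).2

theorem prod_mul_mem {G : Type} [Group G] {C : Subgroup G} (x : G) (L : List G) (hL : L ≠ [])
    (hLC : ∀ c ∈ L, c ∈ C) (c : G) (hc : c ∈ C) :
    ∃ L' : List G, L' ≠ [] ∧ (∀ c ∈ L', c ∈ C) ∧
      (L.map (fun c => x * c)).prod * c = (L'.map (fun c => x * c)).prod := by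
  induction L with
  | nil => exact absurd rfl hL
  | cons a L ih =>
    by_cases hL0 : L = []
    · subst hL0
      refine ⟨[a * c], by simp, ?_, ?_⟩
      · intro b hb
        rw [List.mem_singleton] at hb
        rw [hb]
        exact C.mul_mem (hLC a (by simp)) hc
      · simp [mul_assoc]
    · obtain ⟨L', h1, h2, h3⟩ := ih hL0 (fun b hb => hLC b (List.mem_cons_of_mem _ hb))
      refine ⟨a :: L', by simp, ?_, ?_⟩
      · intro b hb
        rcases List.mem_cons.mp hb with rfl | hb
        · exact hLC _ (by simp)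
        · exact h2 b hb
      · rw [List.map_cons, List.prod_cons, List.map_cons, List.prod_cons, mul_assoc, h3]

theorem RR.exists_list {G : Type} [Group G] {C : Subgroup G} {x u : G} (h : RR C x u) :
    ∃ (c0 : G) (L : List G), c0 ∈ C ∧ L ≠ [] ∧ (∀ c ∈ L, c ∈ C) ∧
      u = c0 * (L.map (fun c => x * c)).prod := by
  induction h with
  | one c1 c2 h1 h2 =>
    refine ⟨c1, [c2], h1, by simp, ?_, ?_⟩
    · intro b hb
      rw [List.mem_singleton] at hb
      rw [hb]
      exact h2
    · simp [mul_assoc]
  | mul u v _ _ ih1 ih2 =>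
    obtain ⟨c, L, hc, hL, hLC, rfl⟩ := ih1
    obtain ⟨c', L', hc', hL', hLC', rfl⟩ := ih2
    obtain ⟨L'', h1, h2, h3⟩ := prod_mul_mem x L hL hLC c' hc'
    refine ⟨c, L'' ++ L', hc, by simp [h1], ?_, ?_⟩
    · intro b hb
      rcases List.mem_append.mp hb with hb | hb
      · exact h2 b hb
      · exact hLC' b hb
    · rw [List.map_append, List.prod_append, ← h3]
      simp only [mul_assoc]

theorem RR.not_mem {G : Type} [Group G] {C K : Subgroup G} {x u : G} (hK : RTF K C)
    (hx : x ∈ K) (hxC : x ∉ C) (h : RR C x u) : u ∉ C := by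
  obtain ⟨c0, L, hc0, hL, hLC, rfl⟩ := h.exists_list
  intro hu
  have := hK x hx hxC L hL hLC
  exact this ((Subgroup.mul_mem_cancel_left C hc0).mp hu)

variable {G : Type} [Group G] {H : Bool → Subgroup G} {C : Subgroup G}

theorem RW.exists_list {s t : Bool} {g : G} (h : RW H C s t g) :
    ∃ L : List G, L ≠ [] ∧ g = L.prod ∧
      (∀ (j : ℕ) (hj : j < L.length), L[j] ∈ H (tp s j) ∧ L[j] ∉ C) ∧
      tp s L.length = !t := by
  induction h with
  | one s x hx hxC =>
    refine ⟨[x], by simp, by simp, ?_, rfl⟩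
    intro j hj
    have : j = 0 := by simpa using hj
    subst this
    exact ⟨hx, hxC⟩
  | cons s t x y hx hxC _ ih =>
    obtain ⟨L, h1, h2, h3, h4⟩ := ih
    refine ⟨x :: L, by simp, by rw [List.prod_cons, h2], ?_, ?_⟩
    · intro j hj
      cases j with
      | zero => exact ⟨hx, hxC⟩
      | succ j =>
        have h5 : j < L.length := by simpa using hj
        have h6 := h3 j h5
        rw [tp_succ'] at h6
        exact h6
    · rw [List.length_cons, ← tp_succ', h4]

/-- the complementary path of a cyclically reduced word -/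
def ks (x0 : G) : Bool → List G → PW G C
  | _, [] => i x0
  | t, y :: M => i y * z t * ks x0 (!t) M

theorem ks_g (x0 : G) (t : Bool) (M : List G) : (ks x0 t M : PW G C).g = M.prod * x0 := by
  induction M generalizing t with
  | nil => simp [ks, i_g]
  | cons y M ih => rw [ks, mul_g, mul_g, z_g, mul_one, i_g, ih, List.prod_cons, mul_assoc]

theorem Path.mul {s t u : Bool} {A B : PW G C} (h : Path H C s t A) (h' : Path H C t u B) :
    Path H C s u (A * B) := by
  induction h with
  | nil s x hx =>
    cases h' with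
    | nil _ y hy => exact Path.nil _ _ ((H _).mul_mem hx hy)
    | cons _ _ y W hy hW =>
      rw [← mul_assoc, ← mul_assoc, ← i_mul]
      exact Path.cons _ _ _ _ ((H _).mul_mem hx hy) hW
  | cons s t x W hx _ ih =>
    rw [mul_assoc]
    exact Path.cons _ _ _ _ hx (ih h')

theorem Path.z (s : Bool) : Path H C s (!s) (z s : PW G C) := by
  have := Path.cons (H := H) (C := C) s (!s) 1 (i 1) ((H s).one_mem)
    (Path.nil _ _ ((H _).one_mem))
  rwa [i_one, one_mul, mul_one] at this

theorem ks_path {s : Bool} {x0 : G} (hx0 : x0 ∈ H s) (L : List G)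
    (hL : ∀ (j : ℕ) (hj : j < L.length), L[j] ∈ H (tp s j)) (hm : tp s L.length = s) (j : ℕ)
    (hj : j ≤ L.length) :
    Path H C (tp s j) s (ks x0 (tp s j) (L.drop j)) := by
  obtain ⟨n, hn⟩ : ∃ n, n = L.length - j := ⟨_, rfl⟩
  induction n generalizing j with
  | zero =>
    have : j = L.length := by omega
    subst this
    rw [List.drop_length, hm]
    exact Path.nil _ _ hx0
  | succ n ih =>
    have hj' : j < L.length := by omega
    rw [List.drop_eq_getElem_cons hj']
    exact Path.cons _ _ _ _ (hL j hj') (ih (j + 1) (by omega) (by omega))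

theorem Gen.two_le {E : Bool → PW G C → Prop} (hE : ClSys C E) {b : Bool} {W : PW G C}
    (h : Gen E b W) : b = true → 2 ≤ W.len := by
  induction h with
  | base => intro h; cases h
  | insR b s U V _ ih =>
    intro hb
    have := ih hb
    rw [len_mul, len_mul, len_mul, len_z, len_z]
    rw [len_mul] at this
    omega
  | insK b s U V κ hκ _ _ =>
    intro _
    have := hE.len _ _ hκ
    rw [len_mul, len_mul, len_mul, len_z]
    omega

/-- descent -/
theorem no_closed (hGEN : S_GEN) (hBT : S_BT) (hC : ∀ s, C ≤ H s)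
    (hNF : ∀ s t x, RW H C s t x → x ≠ 1) {E : Bool → PW G C → Prop} (hE : ClSys C E)
    (s : Bool) : ∀ (n : ℕ) (W : PW G C), W.len = n → Path H C s s W → W.g = 1 →
      Gen E true W → False := by
  intro n
  induction n using Nat.strong_induction_on with
  | _ n ih =>
    intro W hn hP hg hG
    have h2 := hG.two_le hE rfl
    obtain ⟨U, V, t, hW, hUV⟩ := hBT G H C hC hNF s W hP hg (by omega)
    subst hW
    have h3 := hGEN G C E hE true t U V hG
    rw [len_mul, len_mul, len_mul, len_z, len_z] at hn
    refine ih (U * V).len (by rw [len_mul]; omega) (U * V) rfl hUV ?_ h3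
    rw [mul_g, mul_g, mul_g, z_g, z_g, mul_one, mul_one] at hg
    rw [mul_g, hg]

/-- conjugators can be inserted -/
def Hh (H : Bool → Subgroup G) (C : Subgroup G) (E : Bool → PW G C → Prop) (s : Bool) (h : G) :
    Prop :=
  ∃ A B : PW G C, Path H C s s A ∧ Path H C s s B ∧ A.g = h ∧ B.g = h⁻¹ ∧
    (∀ b U V, Gen E b (U * V) → Gen E b (U * A * B * V)) ∧
    (∀ b U V, Gen E b (U * V) → Gen E b (U * B * A * V))

theorem Hh_same {E : Bool → PW G C → Prop} {s : Bool} {h : G} (hh : h ∈ H s) :
    Hh H C E s h := by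
  refine ⟨i h, i h⁻¹, Path.nil _ _ hh, Path.nil _ _ ((H s).inv_mem hh), rfl, rfl, ?_, ?_⟩
  · intro b U V hUV
    rw [mul_assoc U, i_mul_i_inv, mul_one]
    exact hUV
  · intro b U V hUV
    rw [mul_assoc U, i_inv_mul_i, mul_one]
    exact hUV

theorem Hh_other {E : Bool → PW G C → Prop} {s : Bool} {h : G} (hh : h ∈ H (!s)) :
    Hh H C E s h := by
  have key : ∀ (h : G) (b : Bool) (U V : PW G C), Gen E b (U * V) →
      Gen E b (U * (z s * i h * z (!s)) * (z s * i h⁻¹ * z (!s)) * V) := by
    intro h b U V hUV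
    have h1 := Gen.insR b s U V hUV
    have h2 : U * z s * z (!s) * V = (U * z s * i h) * (i h⁻¹ * z (!s) * V) := by
      have : (i h : PW G C) * (i h⁻¹ * z (!s) * V) = z (!s) * V := by
        rw [← mul_assoc, ← mul_assoc, i_mul_i_inv, one_mul]
      rw [mul_assoc (U * z s) (i h), this, ← mul_assoc]
    rw [h2] at h1
    have h3 := Gen.insR b (!s) _ _ h1
    rw [Bool.not_not] at h3
    simpa only [mul_assoc] using h3
  have hz : Path H C (!s) s (z (!s) : PW G C) := by
    have := Path.z (H := H) (C := C) (!s)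
    rwa [Bool.not_not] at this
  refine ⟨z s * i h * z (!s), z s * i h⁻¹ * z (!s), ?_, ?_, ?_, ?_, ?_, ?_⟩
  · exact ((Path.z s).mul (Path.nil _ _ hh)).mul hz
  · exact ((Path.z s).mul (Path.nil _ _ ((H (!s)).inv_mem hh))).mul hz
  · rw [mul_g, mul_g, z_g, z_g, i_g, one_mul, mul_one]
  · rw [mul_g, mul_g, z_g, z_g, i_g, one_mul, mul_one]
  · exact key h
  · intro b U V hUV
    have := key h⁻¹ b U V hUV
    rwa [inv_inv] at this

theorem Hh_all {E : Bool → PW G C → Prop} (s : Bool)
    (hgen : Subgroup.closure ((H false : Set G) ∪ (H true : Set G)) = ⊤) (h : G) :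
    Hh H C E s h := by
  have hmem : h ∈ Subgroup.closure ((H false : Set G) ∪ (H true : Set G)) := by
    rw [hgen]; exact Subgroup.mem_top h
  induction hmem using Subgroup.closure_induction with
  | mem x hx =>
    have h1 : x ∈ H s ∨ x ∈ H (!s) := by
      cases s with
      | false =>
        rcases hx with hx | hx
        · exact Or.inl hx
        · exact Or.inr hx
      | true =>
        rcases hx with hx | hx
        · exact Or.inr hx
        · exact Or.inl hx
    rcases h1 with h1 | h1
    · exact Hh_same h1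
    · exact Hh_other h1
  | one => exact Hh_same (H s).one_mem
  | mul x y _ _ ihx ihy =>
    obtain ⟨A, B, hA, hB, hAg, hBg, h1, h2⟩ := ihx
    obtain ⟨A', B', hA', hB', hAg', hBg', h1', h2'⟩ := ihy
    refine ⟨A * A', B' * B, hA.mul hA', hB'.mul hB, ?_, ?_, ?_, ?_⟩
    · rw [mul_g, hAg, hAg']
    · rw [mul_g, hBg, hBg', mul_inv_rev]
    · intro b U V hUV
      have h3 := h1 b U V hUV
      have h4 : U * A * B * V = (U * A) * (B * V) := by rw [mul_assoc (U * A)]
      rw [h4] at h3
      have h5 := h1' b _ _ h3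
      simpa only [mul_assoc] using h5
    · intro b U V hUV
      have h3 := h2' b U V hUV
      have h4 : U * B' * A' * V = (U * B') * (A' * V) := by rw [mul_assoc (U * B')]
      rw [h4] at h3
      have h5 := h2 b _ _ h3
      simpa only [mul_assoc] using h5
  | inv x _ ih =>
    obtain ⟨A, B, hA, hB, hAg, hBg, h1, h2⟩ := ih
    exact ⟨B, A, hB, hA, hBg, by rw [hAg, inv_inv], h2, h1⟩

theorem t2 (hGEN : S_GEN) (hSEG : S_SEG) (hBT : S_BT) : S_T2 := by
  intro G _ H C hC hNF hgen hrtf s g hg l hl
  obtain ⟨L, hL0, hgL, hLmem, hLt⟩ := hg.exists_list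
  rw [Bool.not_not] at hLt
  obtain ⟨m, hm⟩ : ∃ m, m = L.length := ⟨_, rfl⟩
  have hm0 : 0 < m := by
    rw [hm]
    exact List.length_pos_iff.mpr hL0
  have hm2 : 2 ≤ m := by
    by_contra hcon
    have : m = 1 := by omega
    rw [← hm, this] at hLt
    cases s <;> cases hLt
  have : NeZero m := ⟨by omega⟩
  let typ : ZMod m → Bool := fun p => tp s p.val
  have htypm : tp s m = s := by rw [hm]; exact hLt
  have htyp : ∀ p, typ (p + 1) = !typ p := by
    intro p
    change tp s (p + 1).val = tp s (p.val + 1)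
    by_cases h : p.val + 1 < m
    · have h1 : (1 : ZMod m).val = 1 := ZMod.val_one'' (by omega)
      rw [ZMod.val_add_of_lt (by rw [h1]; exact h), h1]
    · have hlt := ZMod.val_lt p
      have h1 : p.val + 1 = m := by omega
      have h2 : p + 1 = 0 := by
        have : ((p.val + 1 : ℕ) : ZMod m) = 0 := by rw [h1]; exact ZMod.natCast_self m
        rw [Nat.cast_add, Nat.cast_one, ZMod.natCast_zmod_val] at this
        exact this
      rw [h2, h1, htypm, ZMod.val_zero]
      rfl
  have htypc : ∀ j, j ≤ m → typ (j : ZMod m) = tp s j := by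
    intro j hj
    rcases Nat.lt_or_eq_of_le hj with h | h
    · change tp s ((j : ZMod m)).val = _
      rw [ZMod.val_natCast_of_lt h]
    · subst h
      change tp s ((j : ZMod j)).val = _
      rw [ZMod.natCast_self, ZMod.val_zero, htypm]
      rfl
  let R : ZMod m → Set G := fun p => {y | RR C (L[p.val]'(by rw [← hm]; exact ZMod.val_lt p)) y}
  have hE : ClSys C (ESeg m typ R) := by
    refine hSEG G C m typ R hm2 htyp ?_ ?_ ?_
    · intro p x hx y hy
      exact RR.mul _ _ hx hy
    · intro p c hc x hx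
      exact RR.cmul hx c hc
    · intro p x hx
      have h1 := hLmem p.val (by rw [← hm]; exact ZMod.val_lt p)
      exact RR.not_mem (hrtf _) h1.1 h1.2 hx
  -- the cluster
  have h0 : 0 < L.length := by omega
  have hR0 : ∀ (j : ℕ) (hj : j < L.length), L[j] ∈ R (j : ZMod m) := by
    intro j hj
    have h1 : ((j : ZMod m)).val = j := ZMod.val_natCast_of_lt (by omega)
    have h2 := RR.one (C := C) (x := L[j]) 1 1 C.one_mem C.one_mem
    rw [one_mul, mul_one] at h2
    simp only [R, Set.mem_ofPred_eq, h1]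
    exact h2
  have hks : ∀ n j, n = m - j → j ≤ m →
      Seg m typ R (j : ZMod m) 0 ((m : ℤ) - j) (ks L[0] (tp s j) (L.drop j) : PW G C) := by
    intro n
    induction n with
    | zero =>
      intro j hn hj
      have hjm : j = m := by omega
      subst hjm
      have h1 := Seg.run (G := G) (C := C) (typ := typ) (R := R) 0 0 0 L[0] rfl (by simp)
        (fun _ => by
          have := hR0 0 h0
          rwa [Nat.cast_zero] at this)
      have h2 : L.drop j = [] := by
        rw [hm]
        exact List.drop_length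
      rw [h2, ZMod.natCast_self, sub_self]
      rw [Nat.cast_zero, neg_zero] at h1
      exact h1
    | succ n ih =>
      intro j hn hj
      have hj' : j < L.length := by omega
      have h1 := ih (j + 1) (by omega) (by omega)
      rw [List.drop_eq_getElem_cons hj']
      have h2 : Seg m typ R ((j : ZMod m) + 1) 0 ((m : ℤ) - ((j + 1 : ℕ) : ℤ))
          (ks L[0] (tp s (j + 1)) (L.drop (j + 1)) : PW G C) := by
        rw [← Nat.cast_succ]
        exact h1
      have h3 := Seg.cons (j : ZMod m) (j : ZMod m) 0 0 L[j] _ _ rfl (by simp)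
        (fun _ => hR0 j hj') h2
      rw [htypc j hj] at h3
      have h4 : -((0 : ℕ) : ℤ) + 1 + ((m : ℤ) - ((j + 1 : ℕ) : ℤ)) = (m : ℤ) - j := by
        push_cast
        ring
      rw [h4] at h3
      exact h3
  have hκ : ESeg m typ R (!s) (ks L[0] (!s) (L.drop 1) : PW G C) := by
    refine ⟨0, (m : ℤ) - 1, ?_, le_refl _, ?_⟩
    · rw [htyp]
      change (!(tp s (0 : ZMod m).val)) = !s
      rw [ZMod.val_zero]
      rfl
    · have := hks (m - 1) 1 rfl (by omega)
      rw [Nat.cast_one, Nat.cast_one] at this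
      rw [zero_add]
      exact this
  have hx0 : L[0] ∈ H s := (hLmem 0 h0).1
  have hκP : Path H C (!s) s (ks L[0] (!s) (L.drop 1) : PW G C) := by
    have := ks_path (C := C) hx0 L (fun j hj => (hLmem j hj).1) hLt 1 (by omega)
    exact this
  have hκg : L[0] * (ks L[0] (!s) (L.drop 1) : PW G C).g * L[0]⁻¹ = g := by
    rw [ks_g, hgL]
    have h5 : L.prod = L[0] * (L.drop 1).prod := by
      have : L = L[0] :: L.drop 1 := by
        have h6 := List.drop_eq_getElem_cons h0
        rw [List.drop_zero] at h6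
        exact h6
      conv_lhs => rw [this]
      rw [List.prod_cons]
    rw [h5]
    group
  generalize hκdef : (ks L[0] (!s) (L.drop 1) : PW G C) = κ at hκ hκP hκg
  -- all conjugates
  have hall : ∀ l : List G, ∃ W : PW G C, Path H C s s W ∧
      W.g = (l.map (fun h => h * g * h⁻¹)).prod ∧
      ∀ (b : Bool) (U V : PW G C), Gen (ESeg m typ R) b (U * V) →
        (l = [] → Gen (ESeg m typ R) b (U * W * V)) ∧
        (l ≠ [] → Gen (ESeg m typ R) true (U * W * V)) := by
    intro l
    induction l with
    | nil =>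
      refine ⟨1, Path.nil _ _ (H s).one_mem, rfl, ?_⟩
      intro b U V hUV
      refine ⟨fun _ => ?_, fun h => absurd rfl h⟩
      rw [mul_one]
      exact hUV
    | cons h l ih =>
      obtain ⟨W, hW, hWg, hW2⟩ := ih
      obtain ⟨A, B, hA, hB, hAg, hBg, h1, -⟩ :=
        Hh_all (E := ESeg m typ R) (C := C) s hgen h
      refine ⟨A * (i L[0] * z s * κ * i L[0]⁻¹) * B * W, ?_, ?_, ?_⟩
      · refine ((hA.mul ?_).mul hB).mul hW
        exact (Path.cons _ _ _ _ hx0 hκP).mul (Path.nil _ _ ((H s).inv_mem hx0))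
      · rw [mul_g, mul_g, mul_g, mul_g, mul_g, mul_g, hWg, hAg, hBg, z_g, i_g, i_g, mul_one,
          hκg, List.map_cons, List.prod_cons]
      · intro b U V hUV
        refine ⟨fun h => absurd h (by simp), fun _ => ?_⟩
        have hb : ∃ b', Gen (ESeg m typ R) b' (U * (W * V)) := by
          by_cases hl' : l = []
          · exact ⟨b, by rw [← mul_assoc]; exact (hW2 b U V hUV).1 hl'⟩
          · exact ⟨true, by rw [← mul_assoc]; exact (hW2 b U V hUV).2 hl'⟩
        obtain ⟨b', hb'⟩ := hb
        have h3 := h1 b' U (W * V) hb'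
        have h4 : U * A * B * (W * V) = (U * A * i L[0]) * (i L[0]⁻¹ * B * (W * V)) := by
          have : (i L[0] : PW G C) * (i L[0]⁻¹ * B * (W * V)) = B * (W * V) := by
            rw [mul_assoc (i L[0]⁻¹) B, ← mul_assoc (i L[0]), i_mul_i_inv, one_mul]
          rw [mul_assoc (U * A) (i L[0]), this, mul_assoc (U * A)]
        rw [h4] at h3
        have h5 := Gen.insK b' s _ _ κ hκ h3
        simpa only [mul_assoc] using h5
  obtain ⟨W, hW, hWg, hW2⟩ := hall l
  intro hcon
  have hG : Gen (ESeg m typ R) true W := by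
    have := (hW2 false 1 1 (by rw [one_mul]; exact Gen.base)).2 hl
    rwa [one_mul, mul_one] at this
  exact no_closed hGEN hBT hC hNF hE s W.len W rfl hW (by rw [hWg, hcon]) hG

end Pool.Agent.Y52.RS
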