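import Mathlib
import Pool.Agent.Y52.RS.T2
import Pool.Agent.TH103.VD.Syll

/-!
Amalgams of good pairs are R-star.
-/

set_option autoImplicit false

namespace Pool.Agent.Y52.RS

open Monoid Pool.Agent.TH103.VD

theorem crd_inj {Ω A : Type} [Group A] (w0 : Ω) {a b : A} (h : crd w0 a = crd w0 b) : a = b := by
  have h1 := congrArg (fun u => u.f w0) h
  simpa [crd] using h1

theorem Good.inj {C F : Type} [Group C] [Group F] {φ : C →* F} (h : Good C F φ) :
    Function.Injective φ := by
  obtain ⟨Ω, w0, θ, hθ⟩ := h.lab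
  intro a b hab
  apply crd_inj w0
  rw [← hθ, ← hθ, hab]

section

variable {C : Type} [Group C] {G : Bool → Type} [∀ b, Group (G b)] {φ : ∀ b, C →* G b}

/-- the factors -/
def HH (φ : ∀ b, C →* G b) (b : Bool) : Subgroup (PushoutI φ) :=
  (PushoutI.of (φ := φ) b).range

/-- the base -/
def CC (φ : ∀ b, C →* G b) : Subgroup (PushoutI φ) := (PushoutI.base φ).range

theorem CC_le (b : Bool) : CC φ ≤ HH φ b := by
  rintro x ⟨c, rfl⟩
  exact ⟨φ b c, PushoutI.of_apply_eq_base φ b c⟩

theorem of_mem_CC (hφ : ∀ b, Function.Injective (φ b)) {b : Bool} {x : G b} :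
    PushoutI.of (φ := φ) b x ∈ CC φ ↔ x ∈ (φ b).range := by
  constructor
  · rintro ⟨c, hc⟩
    refine ⟨c, ?_⟩
    apply PushoutI.of_injective hφ b
    rw [PushoutI.of_apply_eq_base]
    exact hc
  · rintro ⟨c, rfl⟩
    exact ⟨c, (PushoutI.of_apply_eq_base φ b c).symm⟩

theorem RW.exists_red (hφ : ∀ b, Function.Injective (φ b)) {s t : Bool} {x : PushoutI φ}
    (h : RW (HH φ) (CC φ) s t x) :
    ∃ L : List (Σ b, G b), L ≠ [] ∧ Red φ L ∧ pr φ L = x ∧ ∀ y ∈ L.head?, y.1 = s := by
  induction h with
  | one s x hx hxC =>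
    obtain ⟨y, rfl⟩ := hx
    refine ⟨[⟨s, y⟩], by simp, ⟨?_, ?_⟩, ?_, ?_⟩
    · intro u hu
      rw [List.mem_singleton] at hu
      subst hu
      exact fun h => hxC ((of_mem_CC hφ).mpr h)
    · exact List.isChain_singleton _
    · rw [pr_cons, pr_nil, mul_one]
    · intro u hu
      simp only [List.head?_cons, Option.mem_def, Option.some.injEq] at hu
      rw [← hu]
  | cons s t x y hx hxC _ ih =>
    obtain ⟨x, rfl⟩ := hx
    obtain ⟨L, h1, h2, h3, h4⟩ := ih
    refine ⟨⟨s, x⟩ :: L, by simp, ⟨?_, ?_⟩, ?_, ?_⟩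
    · intro u hu
      rcases List.mem_cons.mp hu with rfl | hu
      · exact fun h => hxC ((of_mem_CC hφ).mpr h)
      · exact h2.1 u hu
    · rw [List.isChain_cons]
      refine ⟨?_, h2.2⟩
      intro u hu
      rw [h4 u hu]
      cases s <;> simp
    · rw [pr_cons, h3]
    · intro u hu
      simp only [List.head?_cons, Option.mem_def, Option.some.injEq] at hu
      rw [← hu]

theorem Red.exists_rw (hφ : ∀ b, Function.Injective (φ b)) (L : List (Σ b, G b)) (hL : L ≠ [])
    (h : Red φ L) : ∀ x ∈ L.head?, ∀ y ∈ L.getLast?, RW (HH φ) (CC φ) x.1 y.1 (pr φ L) := by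
  induction L with
  | nil => exact absurd rfl hL
  | cons u L ih =>
    intro x hx y hy
    simp only [List.head?_cons, Option.mem_def, Option.some.injEq] at hx
    subst hx
    have hu : PushoutI.of (φ := φ) u.1 u.2 ∉ CC φ := fun h' =>
      h.1 u (by simp) ((of_mem_CC hφ).mp h')
    cases L with
    | nil =>
      simp only [List.getLast?_singleton, Option.mem_def, Option.some.injEq] at hy
      subst hy
      rw [pr_cons, pr_nil, mul_one]
      exact RW.one _ _ ⟨_, rfl⟩ hu
    | cons v L =>
      have h2 : Red φ (v :: L) :=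
        ⟨fun s hs => h.1 s (List.mem_cons_of_mem _ hs), (List.isChain_cons_cons.mp h.2).2⟩
      have h3 := (List.isChain_cons_cons.mp h.2).1
      have hy' : y ∈ (v :: L).getLast? := by
        rw [List.getLast?_cons_of_ne_nil (by simp)] at hy
        exact hy
      have h4 := ih (by simp) h2 v (by simp) y hy'
      have h5 : v.1 = !u.1 := by
        revert h3
        generalize u.1 = p
        generalize v.1 = q
        cases p <;> cases q <;> simp
      rw [h5] at h4
      rw [pr_cons]
      exact RW.cons _ _ _ _ ⟨_, rfl⟩ hu h4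

theorem gen_top : Subgroup.closure ((HH φ false : Set (PushoutI φ)) ∪ (HH φ true : Set _)) = ⊤ := by
  rw [eq_top_iff]
  intro x _
  induction x using PushoutI.induction_on with
  | of b g =>
    apply Subgroup.subset_closure
    cases b with
    | false => exact Or.inl ⟨g, rfl⟩
    | true => exact Or.inr ⟨g, rfl⟩
  | base c =>
    apply Subgroup.subset_closure
    exact Or.inl (CC_le false ⟨c, rfl⟩)
  | mul x y hx hy => exact Subgroup.mul_mem _ (hx trivial) (hy trivial)

theorem rtf_of_good (h : ∀ b, Good C (G b) (φ b)) (b : Bool) : RTF (HH φ b) (CC φ) := by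
  have hφ : ∀ b, Function.Injective (φ b) := fun b => (h b).inj
  rintro x ⟨y, rfl⟩ hyC L hL hLC
  have hL' : ∃ M : List C, M ≠ [] ∧ (L.map (fun c => PushoutI.of (φ := φ) b y * c)).prod =
      PushoutI.of (φ := φ) b (M.map (fun c => y * φ b c)).prod := by
    clear hyC
    induction L with
    | nil => exact absurd rfl hL
    | cons c L ih =>
      obtain ⟨e, he⟩ := hLC c (by simp)
      by_cases hL0 : L = []
      · subst hL0
        refine ⟨[e], by simp, ?_⟩
        simp only [List.map_cons, List.map_nil, List.prod_cons, List.prod_nil, mul_one, map_mul]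
        rw [PushoutI.of_apply_eq_base, he]
      · obtain ⟨M, hM, hM2⟩ := ih hL0 (fun c hc => hLC c (List.mem_cons_of_mem _ hc))
        refine ⟨e :: M, by simp, ?_⟩
        rw [List.map_cons, List.prod_cons, hM2, List.map_cons, List.prod_cons, map_mul, map_mul,
          PushoutI.of_apply_eq_base, he]
  obtain ⟨M, hM, hM2⟩ := hL'
  rw [hM2, of_mem_CC hφ]
  exact (h b).rtf y (fun hy => hyC ((of_mem_CC hφ).mpr hy)) M hM

/-- amalgams of good pairs are R-star -/
theorem amalgam (hELL : S_ELL) (hT2 : S_T2) (h : ∀ b, Good C (G b) (φ b)) :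
    RSt (PushoutI φ) := by
  have hφ : ∀ b, Function.Injective (φ b) := fun b => (h b).inj
  intro g hg l hl
  obtain ⟨c, L, hL, hLr⟩ := exists_red_conj g
  have hgL : g = c * pr φ L * c⁻¹ := by rw [hL]; group
  have hL0 : L ≠ [] := by
    rintro rfl
    apply hg
    rw [hgL, pr_nil]
    group
  have key : ∀ l' : List (PushoutI φ), l' ≠ [] →
      (l'.map (fun h => h * pr φ L * h⁻¹)).prod ≠ 1 := by
    rcases hLr with h1 | h1
    · match L, h1, hL0, hgL with
      | [], _, h0, _ => exact absurd rfl h0
      | [u], _, _, hgL =>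
        intro l' hl'
        have h2 : pr φ [u] = PushoutI.of u.1 u.2 := by rw [pr_cons, pr_nil, mul_one]
        rw [h2]
        refine hELL C G φ h u.1 u.2 ?_ l' hl'
        intro h3
        apply hg
        rw [hgL, h2, h3, map_one]
        group
    · intro l' hl'
      have hr1 := h1 2
      rw [rep, rep, rep, List.append_nil] at hr1
      obtain ⟨x, hx⟩ : ∃ x, x ∈ L.head? := by
        cases L with
        | nil => exact absurd rfl hL0
        | cons a L => exact ⟨a, by simp⟩
      obtain ⟨y, hy⟩ : ∃ y, y ∈ L.getLast? := by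
        refine ⟨L.getLast hL0, ?_⟩
        rw [List.getLast?_eq_some_getLast hL0]
        rfl
      have h2 := (List.isChain_append.mp hr1.2).2.2 y hy x hx
      have hred : Red φ L := by
        have := h1 1
        rw [rep, rep, List.append_nil] at this
        exact this
      have h3 := Red.exists_rw hφ L hL0 hred x hx y hy
      have h4 : y.1 = !x.1 := by
        revert h2
        generalize x.1 = p
        generalize y.1 = q
        cases p <;> cases q <;> simp
      rw [h4] at h3
      refine hT2 (PushoutI φ) (HH φ) (CC φ) CC_le ?_ gen_top (rtf_of_good h) x.1 _ h3 l' hl'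
      intro s t z hz
      obtain ⟨M, hM0, hM1, rfl, -⟩ := hz.exists_red hφ
      exact hM1.ne_one hφ hM0
  have := key (l.map (fun h => h * c)) (by simpa using hl)
  rw [List.map_map] at this
  intro hcon
  apply this
  rw [← hcon]
  congr 1
  apply List.map_congr_left
  intro h _
  simp only [Function.comp_apply]
  rw [hgL]
  group

end

end Pool.Agent.Y52.RS
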