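import Mathlib
import Pool.Agent.Y52.RS.Amal

/-!
The concrete amalgam and its non-orderability.
-/

set_option autoImplicit false

namespace Pool.Agent.Y52.RS

open Monoid

/-! ### right orders -/

section

variable {Γ : Type} [Group Γ]

theorem pw_mem (P : Set Γ) (h1 : (1 : Γ) ∈ P) (hm : ∀ x ∈ P, ∀ y ∈ P, x * y ∈ P) (x : Γ)
    (e : Bool) (hx : if e then x ∈ P else x⁻¹ ∈ P) (n : ℕ) : pw x e n ∈ P := by
  have key : ∀ y ∈ P, y ^ n ∈ P := by
    intro y hy
    induction n with
    | zero => rw [pow_zero]; exact h1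
    | succ n ih => rw [pow_succ]; exact hm _ ih _ hy
  cases e with
  | false => exact key _ hx
  | true => exact key _ hx

/-- the sign lemma: `P` the nonnegative cone -/
theorem sign_aux (P : Set Γ) (h1 : (1 : Γ) ∈ P) (hm : ∀ x ∈ P, ∀ y ∈ P, x * y ∈ P)
    (htot : ∀ x, x ∈ P ∨ x⁻¹ ∈ P) (hanti : ∀ x, x ∈ P → x⁻¹ ∈ P → x = 1) (a b t : Γ)
    (ht : t ∈ P) (ht1 : t ≠ 1) :
    ∃ ea eb : Bool, ∀ k l : ℕ,
      t * zz a b ea eb k * t * zz a b ea eb l ∈ P ∧
      (t * zz a b ea eb k * t * zz a b ea eb l)⁻¹ ∉ P := by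
  obtain ⟨ea, hea⟩ : ∃ ea : Bool, if ea then a ∈ P else a⁻¹ ∈ P := by
    rcases htot a with h | h
    · exact ⟨true, by simpa using h⟩
    · exact ⟨false, by simpa using h⟩
  obtain ⟨eb, heb⟩ : ∃ eb : Bool, if eb then b ∈ P else b⁻¹ ∈ P := by
    rcases htot b with h | h
    · exact ⟨true, by simpa using h⟩
    · exact ⟨false, by simpa using h⟩
  have hz : ∀ k, zz a b ea eb k ∈ P := by
    intro k
    exact hm _ (hm _ (pw_mem P h1 hm a ea hea k) _ (pw_mem P h1 hm b eb heb 1)) _
      (pw_mem P h1 hm a ea hea k)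
  refine ⟨ea, eb, fun k l => ?_⟩
  have h2 : zz a b ea eb k * t * zz a b ea eb l ∈ P := hm _ (hm _ (hz k) _ ht) _ (hz l)
  have h3 : t * zz a b ea eb k * t * zz a b ea eb l =
      t * (zz a b ea eb k * t * zz a b ea eb l) := by
    simp only [mul_assoc]
  refine ⟨by rw [h3]; exact hm _ ht _ h2, ?_⟩
  intro h4
  rw [h3] at h4
  -- t⁻¹ = y * (t y)⁻¹ in P
  have h5 : t⁻¹ ∈ P := by
    have := hm _ h2 _ h4
    rwa [mul_inv_rev, mul_inv_cancel_left] at this
  exact ht1 (hanti t ht h5)

end

/-! ### the data -/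

/-- index set of the relators -/
abbrev JJ : Type := (Bool × Bool) × (Bool × Bool) × Bool

/-- an injective code -/
def code (j : JJ) : ℕ :=
  (if j.1.1 then 1 else 0) + (if j.1.2 then 2 else 0) + (if j.2.1.1 then 4 else 0) +
    (if j.2.1.2 then 8 else 0) + (if j.2.2 then 16 else 0)

theorem code_inj : Function.Injective code := by
  intro x y h
  revert x y
  decide

/-- the first factors -/
def gg (j : JJ) : FreeGroup Bool :=
  zz (FreeGroup.of false) (FreeGroup.of true) j.1.1 j.1.2 (2 * code j + 1)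

/-- the second factors -/
def gg' (j : JJ) : FreeGroup Bool :=
  zz (FreeGroup.of false) (FreeGroup.of true) j.1.1 j.1.2 (2 * code j + 2)

theorem gg_free (hFR : S_FR) : Function.Injective (FreeGroup.lift (Sum.elim gg gg')) := by
  have := hFR (JJ ⊕ JJ) (Sum.elim (fun j => 2 * code j + 1) (fun j => 2 * code j + 2))
    (Sum.elim (fun j => j.1.1) (fun j => j.1.1)) (Sum.elim (fun j => j.1.2) (fun j => j.1.2))
    (by
      rintro (x | x) (y | y) h
      · simp only [Sum.elim_inl] at h
        rw [code_inj (by omega : code x = code y)]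
      · simp only [Sum.elim_inl, Sum.elim_inr] at h
        omega
      · simp only [Sum.elim_inl, Sum.elim_inr] at h
        omega
      · simp only [Sum.elim_inr] at h
        rw [code_inj (by omega : code x = code y)])
    (by rintro (x | x) <;> simp)
  have h2 : (fun j : JJ ⊕ JJ => zz (FreeGroup.of false) (FreeGroup.of true)
      (Sum.elim (fun j : JJ => j.1.1) (fun j : JJ => j.1.1) j)
      (Sum.elim (fun j : JJ => j.1.2) (fun j : JJ => j.1.2) j)
      (Sum.elim (fun j => 2 * code j + 1) (fun j => 2 * code j + 2) j)) = Sum.elim gg gg' := by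
    funext j
    rcases j with j | j <;> rfl
  rw [h2] at this
  exact this

/-- the embedding -/
def ph : FreeGroup JJ →* FreeGroup (Option Bool) := FreeGroup.lift (ww gg gg')

open Classical in
/-- the coordinate homomorphism -/
noncomputable def crdHom {Ω A : Type} [Group A] (w0 : Ω) : A →* LW Ω A where
  toFun := crd w0
  map_one' := by
    apply LW.ext
    · rfl
    · funext w
      simp [crd, LW.one_f]
  map_mul' a b := by
    apply LW.ext
    · rfl
    · funext w
      rw [LW.mul_f]
      change (if w = w0 then a * b else 1) =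
        (if (1 : Equiv.Perm Ω) w = w0 then a else 1) * (if w = w0 then b else 1)
      rw [Equiv.Perm.one_apply]
      split_ifs <;> simp

theorem good_ph (hFR : S_FR) (hTT : S_TT) (hTH : S_TH) (hRT : S_RT) (hFRS : S_FRS) :
    Good (FreeGroup JJ) (FreeGroup (Option Bool)) ph := by
  obtain ⟨T, _, α, t, hTF, hrel, hinj⟩ := hTT JJ gg gg' (gg_free hFR)
  obtain ⟨π, θ, hθp, hθ⟩ := hTH JJ gg gg' T α t hrel hinj
  refine hRT _ _ T ph π θ (hFRS _) hTF hθp ?_
  intro c
  have h1 : θ.comp ph = crdHom (1 : T) := by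
    ext1 j
    rw [MonoidHom.comp_apply, ph, FreeGroup.lift_apply_of, hθ]
    rfl
  exact DFunLike.congr_fun h1 c

open Classical in
/-- twisting a good pair by an automorphism of `C` -/
theorem Good.twist {C F : Type} [Group C] [Group F] {φ : C →* F} (h : Good C F φ)
    (e : C ≃* C) : Good C F (φ.comp e.toMonoidHom) := by
  obtain ⟨hr, ⟨Ω, w0, θ, hθ⟩, hrtf⟩ := h
  have hrange : (φ.comp e.toMonoidHom).range = φ.range := by
    ext x
    constructor
    · rintro ⟨c, rfl⟩
      exact ⟨e c, rfl⟩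
    · rintro ⟨c, rfl⟩
      exact ⟨e.symm c, by simp⟩
  refine ⟨hr, ?_, ?_⟩
  · let μ : LW Ω C →* LW Ω C :=
      { toFun := fun u => ⟨u.p, fun w => e.symm (u.f w)⟩
        map_one' := by
          apply LW.ext
          · rfl
          · funext w
            exact map_one e.symm
        map_mul' := fun u v => by
          apply LW.ext
          · rfl
          · funext w
            exact map_mul e.symm _ _ }
    refine ⟨Ω, w0, μ.comp θ, ?_⟩
    intro c
    rw [MonoidHom.comp_apply, MonoidHom.comp_apply]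
    change μ (θ (φ (e c))) = _
    rw [hθ]
    apply LW.ext
    · rfl
    · funext w
      change e.symm (if w = w0 then e c else 1) = if w = w0 then c else 1
      split_ifs
      · exact e.symm_apply_apply c
      · exact map_one e.symm
  · rw [hrange]
    intro x hx L hL
    have := hrtf x hx (L.map e) (by simpa using hL)
    rw [List.map_map] at this
    exact this

/-- swapping the two sign classes -/
def sw (j : JJ) : JJ := (j.2.1, j.1, j.2.2)

/-- the twist -/
def ee0 : FreeGroup JJ →* FreeGroup JJ :=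
  FreeGroup.lift fun j => if j.2.2 then FreeGroup.of (sw j) else (FreeGroup.of (sw j))⁻¹

theorem ee0_ee0 : ee0.comp ee0 = MonoidHom.id _ := by
  ext1 j
  rw [MonoidHom.comp_apply, MonoidHom.id_apply]
  obtain ⟨x, y, e⟩ := j
  cases e with
  | false =>
    simp [ee0, sw]
  | true =>
    simp [ee0, sw]

/-- the twist as an automorphism -/
def ee : FreeGroup JJ ≃* FreeGroup JJ :=
  MonoidHom.toMulEquiv ee0 ee0 ee0_ee0 ee0_ee0

/-- the two embeddings -/
def phs : ∀ _ : Bool, FreeGroup JJ →* FreeGroup (Option Bool)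
  | false => ph
  | true => ph.comp ee.toMonoidHom

/-- the group -/
abbrev GG : Type := PushoutI phs

theorem zz_map {A B : Type} [Group A] [Group B] (f : A →* B) (a b : A) (ea eb : Bool) (k : ℕ) :
    f (zz a b ea eb k) = zz (f a) (f b) ea eb k := by
  have hp : ∀ (x : A) (e : Bool) (n : ℕ), f (pw x e n) = pw (f x) e n := by
    intro x e n
    cases e <;> simp [pw]
  rw [zz, zz, map_mul, map_mul, hp, hp]

theorem ww_eq (j : JJ) : ww gg gg' j =
    FreeGroup.of none * zz (FreeGroup.of (some false)) (FreeGroup.of (some true)) j.1.1 j.1.2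
      (2 * code j + 1) *
    FreeGroup.of none * zz (FreeGroup.of (some false)) (FreeGroup.of (some true)) j.1.1 j.1.2
      (2 * code j + 2) := by
  rw [ww, gg, gg', zz_map, zz_map, FreeGroup.map.of, FreeGroup.map.of]

theorem not_ro (hinj : ∀ b, Function.Injective (phs b)) :
    ¬ ∃ o : LinearOrder GG, ∀ a b c : GG, a ≤ b → a * c ≤ b * c := by
  rintro ⟨o, ho⟩
  -- the cone
  let P : Set GG := {x | 1 ≤ x}
  let N : Set GG := {x | x ≤ 1}
  have hP1 : (1 : GG) ∈ P := le_refl (1 : GG)
  have hN1 : (1 : GG) ∈ N := le_refl (1 : GG)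
  have hPm : ∀ x ∈ P, ∀ y ∈ P, x * y ∈ P := by
    intro x hx y hy
    have h1 := ho 1 x y hx
    rw [one_mul] at h1
    exact le_trans (show (1 : GG) ≤ y from hy) h1
  have hNm : ∀ x ∈ N, ∀ y ∈ N, x * y ∈ N := by
    intro x hx y hy
    have h1 := ho x 1 y hx
    rw [one_mul] at h1
    exact le_trans h1 (show y ≤ 1 from hy)
  have hPN : ∀ x, x ∈ P → x⁻¹ ∈ N := by
    intro x hx
    have h1 := ho 1 x x⁻¹ hx
    rwa [one_mul, mul_inv_cancel] at h1
  have hNP : ∀ x, x ∈ N → x⁻¹ ∈ P := by
    intro x hx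
    have h1 := ho x 1 x⁻¹ hx
    rwa [one_mul, mul_inv_cancel] at h1
  have hPN0 : ∀ x, x ∈ P → x ∈ N → x = 1 := fun x h1 h2 =>
    le_antisymm (show x ≤ 1 from h2) (show (1 : GG) ≤ x from h1)
  have htotP : ∀ x, x ∈ P ∨ x⁻¹ ∈ P := by
    intro x
    rcases le_total 1 x with h | h
    · exact Or.inl h
    · exact Or.inr (hNP x h)
  have htotN : ∀ x, x ∈ N ∨ x⁻¹ ∈ N := by
    intro x
    rcases le_total 1 x with h | h
    · exact Or.inr (hPN x h)
    · exact Or.inl h
  have hantiP : ∀ x, x ∈ P → x⁻¹ ∈ P → x = 1 := by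
    intro x h1 h2
    have h3 := hPN _ h2
    rw [inv_inv] at h3
    exact hPN0 x h1 h3
  have hantiN : ∀ x, x ∈ N → x⁻¹ ∈ N → x = 1 := by
    intro x h1 h2
    have h3 := hNP _ h2
    rw [inv_inv] at h3
    exact hPN0 x h3 h1
  -- the sign lemma
  have hsign : ∀ a b t : GG, t ≠ 1 → ∃ ea eb s : Bool, ∀ k l : ℕ,
      (s = true → t * zz a b ea eb k * t * zz a b ea eb l ∈ P ∧
        t * zz a b ea eb k * t * zz a b ea eb l ∉ N) ∧
      (s = false → t * zz a b ea eb k * t * zz a b ea eb l ∈ N ∧
        t * zz a b ea eb k * t * zz a b ea eb l ∉ P) := by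
    intro a b t ht
    rcases le_total 1 t with h | h
    · obtain ⟨ea, eb, h1⟩ := sign_aux P hP1 hPm htotP hantiP a b t h ht
      refine ⟨ea, eb, true, fun k l => ⟨fun _ => ⟨(h1 k l).1, fun h2 => ?_⟩, fun h => (by cases h)⟩⟩
      exact (h1 k l).2 (hNP _ h2)
    · obtain ⟨ea, eb, h1⟩ := sign_aux N hN1 hNm htotN hantiN a b t h ht
      refine ⟨ea, eb, false, fun k l => ⟨fun h => (by cases h), fun _ => ⟨(h1 k l).1, fun h2 => ?_⟩⟩⟩
      exact (h1 k l).2 (hPN _ h2)
  let x (b : Bool) (u : Option Bool) : GG := PushoutI.of b (FreeGroup.of u)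
  have ht : ∀ b, x b none ≠ 1 := by
    intro b h
    have h1 := PushoutI.of_injective hinj b (a₁ := FreeGroup.of none) (a₂ := 1) (by
      rw [map_one]
      exact h)
    exact FreeGroup.of_ne_one _ h1
  obtain ⟨a0, b0, s0, h0⟩ := hsign (x false (some false)) (x false (some true)) (x false none)
    (ht false)
  obtain ⟨a1, b1, s1, h1⟩ := hsign (x true (some false)) (x true (some true)) (x true none)
    (ht true)
  -- the elements
  have hofw : ∀ (b : Bool) (j : JJ), (PushoutI.of (φ := phs) b (ww gg gg' j) : GG) =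
      x b none * zz (x b (some false)) (x b (some true)) j.1.1 j.1.2 (2 * code j + 1) *
        x b none * zz (x b (some false)) (x b (some true)) j.1.1 j.1.2 (2 * code j + 2) := by
    intro b j
    rw [ww_eq, map_mul, map_mul, map_mul, zz_map, zz_map]
  have hb0 : ∀ j : JJ, (PushoutI.base phs (FreeGroup.of j) : GG) =
      PushoutI.of (φ := phs) false (ww gg gg' j) := by
    intro j
    rw [← PushoutI.of_apply_eq_base phs false]
    congr 1
    exact FreeGroup.lift_apply_of
  have hb1 : ∀ j : JJ, (PushoutI.base phs (FreeGroup.of j) : GG) =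
      if j.2.2 then PushoutI.of (φ := phs) true (ww gg gg' (sw j))
      else (PushoutI.of (φ := phs) true (ww gg gg' (sw j)))⁻¹ := by
    intro j
    rw [← PushoutI.of_apply_eq_base phs true]
    have h2 : phs true (FreeGroup.of j) = ph (ee0 (FreeGroup.of j)) := rfl
    rw [h2, ee0, FreeGroup.lift_apply_of]
    split_ifs
    · rw [ph, FreeGroup.lift_apply_of]
    · rw [map_inv, ph, FreeGroup.lift_apply_of, map_inv]
  -- signs of base elements
  have hs0 : ∀ η : Bool,
      (s0 = true → (PushoutI.base phs (FreeGroup.of ((a0, b0), (a1, b1), η)) : GG) ∈ P ∧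
        (PushoutI.base phs (FreeGroup.of ((a0, b0), (a1, b1), η)) : GG) ∉ N) ∧
      (s0 = false → (PushoutI.base phs (FreeGroup.of ((a0, b0), (a1, b1), η)) : GG) ∈ N ∧
        (PushoutI.base phs (FreeGroup.of ((a0, b0), (a1, b1), η)) : GG) ∉ P) := by
    intro η
    rw [hb0, hofw]
    exact h0 _ _
  have hs1 : ∀ η : Bool,
      (s1 = true → (PushoutI.of (φ := phs) true
          (ww gg gg' (sw ((a0, b0), (a1, b1), η))) : GG) ∈ P ∧
        (PushoutI.of (φ := phs) true (ww gg gg' (sw ((a0, b0), (a1, b1), η))) : GG) ∉ N) ∧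
      (s1 = false → (PushoutI.of (φ := phs) true
          (ww gg gg' (sw ((a0, b0), (a1, b1), η))) : GG) ∈ N ∧
        (PushoutI.of (φ := phs) true (ww gg gg' (sw ((a0, b0), (a1, b1), η))) : GG) ∉ P) := by
    intro η
    rw [hofw]
    exact h1 _ _
  have ht1 := hb1 ((a0, b0), (a1, b1), true)
  have ht2 := hb1 ((a0, b0), (a1, b1), false)
  simp only [if_true, Bool.false_eq_true, if_false] at ht1 ht2
  have A1 := hs0 true
  have A2 := hs0 false
  have B1 := hs1 true
  have B2 := hs1 false
  rw [ht1] at A1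
  rw [ht2] at A2
  cases s0 with
  | false =>
    have hA1 := A1.2 rfl
    have hA2 := A2.2 rfl
    cases s1 with
    | false =>
      have := hNP _ (B2.2 rfl).1
      exact hA2.2 this
    | true => exact (B1.1 rfl).2 hA1.1
  | true =>
    have hA1 := A1.1 rfl
    have hA2 := A2.1 rfl
    cases s1 with
    | false => exact (B1.2 rfl).2 hA1.1
    | true =>
      have := hPN _ (B2.1 rfl).1
      exact hA2.2 this

/-- assembly -/
theorem final (hGEN : S_GEN) (hSEG : S_SEG) (hBT : S_BT) (hELL : S_ELL) (hFR : S_FR)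
    (hTT : S_TT) (hTH : S_TH) (hRT : S_RT) (hFRS : S_FRS) :
    ¬ (∀ (G : Type) [Group G],
      (∀ g : G, g ≠ 1 → ∀ l : List G, l ≠ [] →
        (l.map (fun h => h * g * h⁻¹)).prod ≠ 1) →
      ∃ o : LinearOrder G, ∀ a b c : G, a ≤ b → a * c ≤ b * c) := by
  intro hcon
  have hgood : ∀ b, Good (FreeGroup JJ) (FreeGroup (Option Bool)) (phs b) := by
    intro b
    have h := good_ph hFR hTT hTH hRT hFRS
    cases b with
    | false => exact h
    | true => exact h.twist ee
  have hRS : RSt GG := amalgam (G := fun _ => FreeGroup (Option Bool)) (φ := phs) hELL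
    (t2 hGEN hSEG hBT) hgood
  exact not_ro (fun b => (hgood b).inj) (hcon GG hRS)

end Pool.Agent.Y52.RS
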